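import Mathlib
import Pool.Agent.N119.PS.Stm
import Pool.Agent.H67R4.SR.Mass

set_option autoImplicit false

/-!
# Kirchhoff's laws for the masses of cylinders (subtask PSC/KIR)
-/

namespace Pool.Agent.N137.PSC

open Pool.Agent.N119.PS Pool.Agent.H472R3 Pool.Agent.H67R3.FSR Pool.Agent.H67R4.SR MeasureTheory
  Topology Filter
open scoped ENNReal NNReal

variable {N : ℕ}

theorem isOpen_ray (n : ℕ) (g : FreeGroup (Fin N)) : IsOpen {ζ : Bd N | ray ζ n = g} := by
  rw [isOpen_iff_mem_nhds]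
  intro ξ hξ
  filter_upwards [ray_locally ξ n] with ζ hζ
  exact hζ.trans hξ

theorem meas_Cyl (g : FreeGroup (Fin N)) : MeasurableSet (Cyl g : Set (Bd2 N)) :=
  ((isOpen_U 1).inter ((isOpen_ray g.norm g).preimage
    (continuous_snd.comp continuous_subtype_val))).measurableSet

theorem toWord_lt (a : Lt N) : (lt a).toWord = [a] := by
  rw [lt, FreeGroup.toWord_mk]
  exact FreeGroup.IsReduced.reduce_eq (by unfold FreeGroup.IsReduced; simp)

theorem lt_inj {a b : Lt N} (h : lt a = lt b) : a = b := by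
  have := congrArg FreeGroup.toWord h
  rw [toWord_lt, toWord_lt] at this
  simpa using this

theorem head_ray (ζ : Bd N) (n : ℕ) : (ray ζ (n + 1)).toWord.head? = some (ζ.1 1) := by
  obtain ⟨t, ht⟩ := ray_pfx ζ 1 n
  have h0 := ray_word ζ 0
  rw [add_comm n 1, ht]
  have h1 : (ray ζ 1).toWord = [ζ.1 1] := by
    have h2 : (ray ζ 0).toWord = [] := FreeGroup.toWord_one
    rw [zero_add, h2, List.nil_append] at h0
    exact h0
  rw [h1]
  rfl

theorem ini_ray (ζ : Bd N) (n : ℕ) : ini (ray ζ (n + 1)) = ray ζ n := by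
  unfold ini
  rw [ray_word, List.dropLast_concat, FreeGroup.mk_toWord]

/-- the ray after a shift by one letter -/
theorem ray_shift (ζ : Bd N) {a : Lt N} (ha : ζ.1 1 = a) (n : ℕ) :
    ray ((lt a)⁻¹ • ζ) n = (lt a)⁻¹ * ray ζ (n + 1) := by
  induction n with
  | zero =>
    rw [ray, ray, ray, one_mul, ha, inv_mul_cancel]
  | succ n ih =>
    have h1 : ray ((lt a)⁻¹ • ζ) (n + 1) = ray ((lt a)⁻¹ • ζ) n *
        lt (((lt a)⁻¹ • ζ).1 (ray ((lt a)⁻¹ • ζ) n)) := rfl
    have h2 : ray ζ (n + 1 + 1) = ray ζ (n + 1) * lt (ζ.1 (ray ζ (n + 1))) := rfl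
    rw [h1, h2, ih, Bd.smul_apply, inv_inv, mul_inv_cancel_left, mul_assoc]

theorem sum_fib (μ : Measure (Bd2 N)) (s : Finset (FreeGroup (Fin N)))
    (D : FreeGroup (Fin N) → Set (Bd2 N)) (S : Set (Bd2 N)) (f : Bd2 N → FreeGroup (Fin N))
    (hm : ∀ e ∈ s, MeasurableSet (D e)) (h1 : ∀ e ∈ s, ∀ q, q ∈ D e ↔ q ∈ S ∧ f q = e)
    (h2 : ∀ q ∈ S, f q ∈ s) : ∑ e ∈ s, μ (D e) = μ S := by
  rw [← measure_biUnion_finset]
  · congr 1
    ext q
    rw [Set.mem_iUnion₂]
    constructor
    · rintro ⟨e, he, hq⟩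
      exact ((h1 e he q).1 hq).1
    · intro hq
      exact ⟨f q, h2 q hq, (h1 _ (h2 q hq) q).2 ⟨hq, rfl⟩⟩
  · intro e he e' he' hne
    rw [Function.onFun, Set.disjoint_left]
    intro q hq hq'
    exact hne (((h1 e he q).1 hq).2.symm.trans ((h1 e' he' q).1 hq').2)
  · exact hm

theorem kir1 (μ : Current N) (n : ℕ) (v : FreeGroup (Fin N)) (hv : v.norm = n) :
    ∑ e ∈ (sph N (n + 1)).filter (fun e => ini e = v), μ.meas (Cyl e) = μ.meas (Cyl v) := by
  apply sum_fib μ.meas _ Cyl (Cyl v) fun q => ray q.1.2 (n + 1)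
  · intro e _
    exact meas_Cyl e
  · intro e he q
    rw [Finset.mem_filter, mem_sph] at he
    obtain ⟨he1, he2⟩ := he
    change (q ∈ U 1 ∧ ray q.1.2 e.norm = e) ↔ (q ∈ U 1 ∧ ray q.1.2 v.norm = v) ∧ _
    rw [he1, hv]
    constructor
    · rintro ⟨h1, h2⟩
      refine ⟨⟨h1, ?_⟩, h2⟩
      rw [← ini_ray, h2, he2]
    · rintro ⟨⟨h1, h2⟩, h3⟩
      exact ⟨h1, h3⟩
  · rintro q ⟨hq1, hq2⟩
    rw [Finset.mem_filter, mem_sph]
    refine ⟨ray_norm _ _, ?_⟩
    rw [ini_ray, ← hv]
    exact hq2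

/-- adding a first letter -/
theorem cyl_cons {e v : FreeGroup (Fin N)} {a : Lt N} (hw : e.toWord = a :: v.toWord)
    (he : e = lt a * v) (q : Bd2 N) :
    lt a • q ∈ Cyl e ↔ q ∈ Cyl v ∧ q.1.1.1 1 = inv' a := by
  have hn : e.norm = v.norm + 1 := by
    unfold FreeGroup.norm
    rw [hw]
    rfl
  have hx : q.1.1.1 1 = (lt a • q.1.1).1 (1 * lt a) := by
    rw [Bd.smul_apply, one_mul, inv_mul_cancel]
  have hz : q.1.2.1 1 = (lt a • q.1.2).1 (1 * lt a) := by
    rw [Bd.smul_apply, one_mul, inv_mul_cancel]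
  have hx' := (lt a • q.1.1).2 1 a
  have hz' := (lt a • q.1.2).2 1 a
  rw [← hx] at hx'
  rw [← hz] at hz'
  have hr : (lt a • q.1.2).1 1 = a → ray q.1.2 v.norm = (lt a)⁻¹ * ray (lt a • q.1.2) e.norm := by
    intro h
    have := ray_shift (lt a • q.1.2) h v.norm
    rw [inv_smul_smul] at this
    rw [this, hn]
  change ((lt a • q.1.1).1 1 ≠ (lt a • q.1.2).1 1 ∧ ray (lt a • q.1.2) e.norm = e) ↔
    (q.1.1.1 1 ≠ q.1.2.1 1 ∧ ray q.1.2 v.norm = v) ∧ q.1.1.1 1 = inv' a
  constructor
  · rintro ⟨h1, h2⟩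
    have h3 : (lt a • q.1.2).1 1 = a := by
      have h4 := head_ray (lt a • q.1.2) v.norm
      rw [← hn, h2, hw] at h4
      exact (Option.some.inj h4).symm
    rw [h3] at h1
    have h5 : q.1.1.1 1 = inv' a := hx'.2 h1
    have h6 : q.1.2.1 1 ≠ inv' a := fun h => hz'.1 h h3
    refine ⟨⟨?_, ?_⟩, h5⟩
    · rw [h5]
      exact h6.symm
    · rw [hr h3, h2, he, inv_mul_cancel_left]
  · rintro ⟨⟨h1, h2⟩, h3⟩
    have h4 : (lt a • q.1.2).1 1 = a := by
      by_contra hc
      have := hz'.2 hc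
      rw [this, h3] at h1
      exact h1 rfl
    refine ⟨?_, ?_⟩
    · rw [h4]
      exact hx'.1 h3
    · have h5 := hr h4
      rw [h2] at h5
      rw [eq_inv_mul_iff_mul_eq] at h5
      rw [← h5, he]

theorem kir2 (μ : Current N) (n : ℕ) (v : FreeGroup (Fin N)) (hv : v.norm = n) :
    ∑ e ∈ (sph N (n + 1)).filter (fun e => tl e = v), μ.meas (Cyl e) = μ.meas (Cyl v) := by
  have key : ∀ e ∈ (sph N (n + 1)).filter (fun e => tl e = v), ∃ a : Lt N,
      e.toWord = a :: v.toWord ∧ e = lt a * v := by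
    intro e he
    rw [Finset.mem_filter, mem_sph] at he
    obtain ⟨he1, he2⟩ := he
    have hne : e ≠ 1 := by
      rintro rfl
      rw [FreeGroup.norm_one] at he1
      omega
    obtain ⟨a, l, hw⟩ := exists_cons hne
    have hr : FreeGroup.IsReduced (a :: l) := by
      rw [← hw]
      exact FreeGroup.isReduced_toWord
    have hl : v.toWord = l := by
      rw [← he2, tl, hw, List.tail_cons, FreeGroup.toWord_mk,
        FreeGroup.IsReduced.reduce_eq (L := l) hr.tail]
    refine ⟨a, by rw [hw, hl], ?_⟩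
    rw [← FreeGroup.mk_toWord (x := e), hw, mk_cons', ← hl, FreeGroup.mk_toWord]
  have e1 : ∑ e ∈ (sph N (n + 1)).filter (fun e => tl e = v), μ.meas (Cyl e) =
      ∑ e ∈ (sph N (n + 1)).filter (fun e => tl e = v), μ.meas {q | (e * v⁻¹) • q ∈ Cyl e} :=
    Finset.sum_congr rfl fun e _ => (inv_pre μ (e * v⁻¹) (meas_Cyl e)).symm
  rw [e1]
  apply sum_fib μ.meas _ (fun e => {q | (e * v⁻¹) • q ∈ Cyl e}) (Cyl v)
    fun q => lt (inv' (q.1.1.1 1)) * v
  · intro e _
    exact (measurable_smul2 (e * v⁻¹)) (meas_Cyl e)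
  · intro e he q
    obtain ⟨a, hw, ha⟩ := key e he
    have h1 : e * v⁻¹ = lt a := by rw [ha, mul_inv_cancel_right]
    change (e * v⁻¹) • q ∈ Cyl e ↔ _
    rw [h1, cyl_cons hw ha]
    refine and_congr_right fun _ => ?_
    constructor
    · intro h
      rw [h, inv'_inv', ha]
    · intro h
      rw [ha] at h
      have := lt_inj (mul_right_cancel h)
      rw [← this, inv'_inv']
  · rintro q ⟨hq1, hq2⟩
    have hh : v.toWord.head? ≠ some (inv' (inv' (q.1.1.1 1))) := by
      rw [inv'_inv']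
      intro h
      rcases Nat.eq_zero_or_pos v.norm with h0 | h0
      · unfold FreeGroup.norm at h0
        rw [List.length_eq_zero_iff] at h0
        rw [h0] at h
        simp at h
      · obtain ⟨m, hm⟩ := Nat.exists_eq_add_of_le' h0
        have h2 := head_ray q.1.2 m
        rw [hm] at hq2
        rw [hq2, h] at h2
        exact hq1 (Option.some.inj h2)
    have hw := toWord_lt_mul hh
    rw [Finset.mem_filter, mem_sph]
    constructor
    · unfold FreeGroup.norm at hv ⊢
      rw [hw, List.length_cons, hv]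
    · rw [tl, hw, List.tail_cons, FreeGroup.mk_toWord]

/-- a symmetric description of the cylinders -/
theorem cyl_iff {e : FreeGroup (Fin N)} {a : Lt N} {l : List (Lt N)} (hw : e.toWord = a :: l)
    (q : Bd2 N) : q ∈ Cyl e ↔
      q.1.1.1 1 ≠ a ∧ q.1.2.1 e ≠ inv' ((a :: l).getLast (by simp)) := by
  have hn : e.norm = l.length + 1 := by
    unfold FreeGroup.norm
    rw [hw]
    rfl
  have hr : FreeGroup.IsReduced (a :: l) := by
    rw [← hw]
    exact FreeGroup.isReduced_toWord
  have hm : FreeGroup.mk (a :: l) = e := by rw [← hw, FreeGroup.mk_toWord]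
  constructor
  · rintro ⟨h1, h2⟩
    have h3 : q.1.2.1 1 = a := by
      have h4 := head_ray q.1.2 l.length
      rw [← hn, h2, hw] at h4
      exact (Option.some.inj h4).symm
    refine ⟨fun h => h1 (h.trans h3.symm), ?_⟩
    have h4 := ray_word q.1.2 l.length
    rw [← hn, h2, hw] at h4
    have h5 : (a :: l).getLast (by simp) = q.1.2.1 (ray q.1.2 l.length) := by
      simp only [h4, List.getLast_append_singleton]
    rw [h5]
    have h6 := q.1.2.2 (ray q.1.2 l.length) (q.1.2.1 (ray q.1.2 l.length))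
    have h7 : ray q.1.2 l.length * lt (q.1.2.1 (ray q.1.2 l.length)) = e := by
      conv_rhs => rw [← h2, hn, ray]
    rw [h7] at h6
    exact fun h => h6.1 h rfl
  · rintro ⟨h1, h2⟩
    have key : ∀ (s : List (Lt N)) (p : List (Lt N)), a :: l = p ++ s →
        ray q.1.2 p.length = FreeGroup.mk p → ray q.1.2 (a :: l).length = FreeGroup.mk (a :: l) := by
      intro s
      induction s with
      | nil =>
        intro p hp h
        rw [List.append_nil] at hp
        rw [hp]
        exact h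
      | cons c s ih =>
        intro p hp h
        have hc : q.1.2.1 (FreeGroup.mk p) = c := by
          by_contra hc
          have hrs : FreeGroup.IsReduced (c :: s) := by
            have : FreeGroup.IsReduced (p ++ c :: s) := by rw [← hp]; exact hr
            exact (List.isChain_append.mp this).2.1
          have h3 := follow q.1.2 s c (FreeGroup.mk p) hrs hc
          rw [FreeGroup.mul_mk, ← hp, hm] at h3
          apply h2
          rw [h3]
          congr 1
          simp only [hp]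
          rw [List.getLast_append_of_ne_nil]
        apply ih (p ++ [c])
        · rw [hp]
          simp
        · rw [List.length_append, List.length_singleton, ray, h, hc, lt, FreeGroup.mul_mk]
    have h3 := key (a :: l) [] rfl rfl
    rw [hm] at h3
    have h4 : ray q.1.2 e.norm = e := by
      rw [hn]
      exact h3
    refine ⟨?_, h4⟩
    have h5 : q.1.2.1 1 = a := by
      have h6 := head_ray q.1.2 l.length
      rw [← hn, h4, hw] at h6
      exact (Option.some.inj h6).symm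
    change q.1.1.1 1 ≠ q.1.2.1 1
    rw [h5]
    exact h1

theorem cyl_inv {e : FreeGroup (Fin N)} (he : e ≠ 1) {q : Bd2 N} (hq : q ∈ Cyl e) :
    flip2 (e⁻¹ • q) ∈ Cyl e⁻¹ := by
  obtain ⟨a, l, hw⟩ := exists_cons he
  obtain ⟨h1, h2⟩ := (cyl_iff hw q).1 hq
  obtain ⟨m, hm⟩ := toWord_inv_cons hw
  rw [cyl_iff hm]
  constructor
  · change (e⁻¹ • q.1.2).1 1 ≠ _
    rw [Bd.smul_apply, inv_inv, mul_one]
    exact h2
  · change (e⁻¹ • q.1.1).1 e⁻¹ ≠ _
    rw [Bd.smul_apply, inv_inv, mul_inv_cancel]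
    have h3 : (inv' ((a :: l).getLast (by simp)) :: m).getLast (by simp) = inv' a := by
      have h4 : (e⁻¹).toWord.getLast? = some (inv' a) := by
        rw [FreeGroup.toWord_inv, hw]
        unfold FreeGroup.invRev
        rw [List.getLast?_reverse]
        rfl
      rw [hm, List.getLast?_eq_getLast_of_ne_nil (by simp)] at h4
      exact Option.some.inj h4
    rw [h3, inv'_inv']
    exact h1

theorem kir3 (μ : Current N) (e : FreeGroup (Fin N)) : μ.meas (Cyl e⁻¹) = μ.meas (Cyl e) := by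
  by_cases he : e = 1
  · rw [he, inv_one]
  · have h1 : (Cyl e : Set (Bd2 N)) = {q | e⁻¹ • q ∈ {r | flip2 r ∈ Cyl e⁻¹}} := by
      ext q
      constructor
      · intro h
        exact cyl_inv he h
      · intro h
        have h2 := cyl_inv (inv_ne_one.2 he) h
        rw [inv_inv] at h2
        have h3 : flip2 (e • flip2 (e⁻¹ • q)) = q := by
          change e • e⁻¹ • q = q
          rw [smul_inv_smul]
        rwa [h3] at h2
    have h4 : MeasurableSet {r : Bd2 N | flip2 r ∈ Cyl e⁻¹} := measurable_flip2 (meas_Cyl e⁻¹)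
    conv_rhs => rw [h1]
    rw [inv_pre μ e⁻¹ h4, flip_pre μ (meas_Cyl e⁻¹)]

theorem t : Pool.Agent.N119.PS.S_KIR := fun _ μ n =>
  ⟨fun v hv => kir1 μ n v hv, fun v hv => kir2 μ n v hv, fun e => kir3 μ e⟩

end Pool.Agent.N137.PSC
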